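import Pool.Agent.Helper24.EG.Goals
import Pool.Agent.Helper68.Dominance

/-!
# Project EG, goal `DOM`: dominance with arcs near the imaginary axis

Adapted from `Pool/Agent/Helper68/Dominance.lean`.
-/

set_option autoImplicit false

namespace Pool.Agent.Helper24.EG

open Finset Pool.Agent.Helper52
open Pool.Agent.Helper68 (trm norm_trm trm_symm choose_le ev_le_of_dvd)

/-- bounds for `|1-z| / |1+z|` on the arc -/
theorem arc_bounds2 {t : ℝ} (ht : t ≤ 1 / 8) {z : ℂ} (hz : ‖z‖ = t) (hre : 0 ≤ z.re) :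
    1 ≤ ‖1 + z‖ ∧ 0 < ‖1 - z‖ ∧ ‖1 - z‖ ≤ Real.exp (-z.re) * ‖1 + z‖ ∧
      ‖1 + z‖ ≤ Real.exp (4 * z.re) * ‖1 - z‖ := by
  have ht0 : 0 ≤ t := by rw [← hz]; exact norm_nonneg z
  have hsq : z.re ^ 2 + z.im ^ 2 = t ^ 2 := by
    have := Complex.sq_norm z
    rw [hz, Complex.normSq_apply] at this
    nlinarith [this]
  have ha : ‖1 + z‖ ^ 2 = 1 + 2 * z.re + t ^ 2 := by
    rw [Complex.sq_norm, Complex.normSq_apply]
    simp only [Complex.add_re, Complex.one_re, Complex.add_im, Complex.one_im, zero_add]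
    nlinarith [hsq]
  have hb : ‖1 - z‖ ^ 2 = 1 - 2 * z.re + t ^ 2 := by
    rw [Complex.sq_norm, Complex.normSq_apply]
    simp only [Complex.sub_re, Complex.one_re, Complex.sub_im, Complex.one_im, zero_sub]
    nlinarith [hsq]
  have hb1 : 1 - t ≤ ‖1 - z‖ := by
    have := norm_sub_norm_le (1 : ℂ) z
    simpa [hz] using this
  have ha0 := norm_nonneg (1 + z)
  have hxt : z.re ≤ t := by
    have := Complex.re_le_norm z
    rwa [hz] at this
  set x := z.re with hx
  refine ⟨?_, by linarith, ?_, ?_⟩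
  · nlinarith
  · have h1 : ‖1 - z‖ ^ 2 ≤ Real.exp (-(2 * x)) * ‖1 + z‖ ^ 2 := by
      have h2 : 1 - 2 * x ≤ Real.exp (-(2 * x)) := by
        have := Real.add_one_le_exp (-(2 * x)); linarith
      have h3 : (1 - 2 * x) * ‖1 + z‖ ^ 2 ≤ Real.exp (-(2 * x)) * ‖1 + z‖ ^ 2 :=
        mul_le_mul_of_nonneg_right h2 (by positivity)
      refine le_trans ?_ h3
      rw [ha, hb]
      have h4 : 0 ≤ x * (1 - t ^ 2 - 2 * x) := mul_nonneg hre (by nlinarith)
      nlinarith
    have h4 : Real.exp (-(2 * x)) * ‖1 + z‖ ^ 2 = (Real.exp (-x) * ‖1 + z‖) ^ 2 := by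
      rw [mul_pow, ← Real.exp_nat_mul]
      congr 2
      push_cast; ring
    rw [h4] at h1
    exact le_of_sq_le_sq h1 (by positivity)
  · have h1 : ‖1 + z‖ ^ 2 ≤ Real.exp (8 * x) * ‖1 - z‖ ^ 2 := by
      have h2 : 1 + 8 * x ≤ Real.exp (8 * x) := by
        have := Real.add_one_le_exp (8 * x); linarith
      have h3 : (1 + 8 * x) * ‖1 - z‖ ^ 2 ≤ Real.exp (8 * x) * ‖1 - z‖ ^ 2 :=
        mul_le_mul_of_nonneg_right h2 (by positivity)
      refine le_trans ?_ h3
      rw [ha, hb]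
      have h4 : 0 ≤ x * (1 - 4 * x) := mul_nonneg hre (by linarith)
      have h5 : 0 ≤ x * t ^ 2 := by positivity
      nlinarith
    have h4 : Real.exp (8 * x) * ‖1 - z‖ ^ 2 = (Real.exp (4 * x) * ‖1 - z‖) ^ 2 := by
      rw [mul_pow, ← Real.exp_nat_mul]
      congr 2
      push_cast; ring
    rw [h4] at h1
    exact le_of_sq_le_sq h1 (by positivity)

/-- bound for all terms except `k = s` (and its mirror) -/
theorem trm_bound2 {t η εo x : ℝ} {s p : ℕ} (ht0 : 0 < t) (ht : t ≤ 1 / 8) (hx0 : 0 < x)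
    (H2 : 4 * x * s + x ≤ εo * Real.log (1 / (4 * t)))
    (H3 : 2 * s + 2 ≤ p) (H4 : (p : ℝ) * Real.exp (x * s) ≤ Real.exp (x * p / 2))
    {Q : ℕ → PowerSeries ℂ} (hQ : ∀ k, Q k ∈ GI)
    (hE : ∀ k ≤ p, ∀ z : ℂ, ‖z‖ ≤ 1 / 4 → ‖ev z (Q k)‖ ≤ Real.exp (η * p))
    (hold : ∀ k < s, (PowerSeries.X : PowerSeries ℂ) ^ ⌈εo * p⌉₊ ∣ Q k)
    {z : ℂ} (hz : ‖z‖ = t) (hre : z.re = x) {k : ℕ} (hk2 : 2 * k ≤ p) (hks : k ≠ s) :
    ‖trm p Q z k‖ ≤ (‖1 + z‖ ^ (p.choose 2 - s * (p - s)) * ‖1 - z‖ ^ (s * (p - s))) *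
      ((p : ℝ) ^ (s + 1) * Real.exp (x * s) * Real.exp (-((x / 2 - η) * p))) := by
  obtain ⟨ha1, hb0, hba, hab⟩ := arc_bounds2 ht hz (by rw [hre]; exact hx0.le)
  rw [hre] at hba hab
  have hp1 : (1 : ℝ) ≤ p := by
    have : 1 ≤ p := by omega
    exact_mod_cast this
  have hp0 : (0 : ℝ) ≤ p := by linarith
  rw [norm_trm]
  set a := ‖1 + z‖ with ha
  set b := ‖1 - z‖ with hb
  have ha0 : 0 < a := by linarith
  have hkE := hE k (by omega) z (by rw [hz]; linarith)
  have hNs : s * (p - s) ≤ p.choose 2 := Pool.Agent.Helper68.lam_le p s (by omega) (by omega)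
  have hNk : k * (p - k) ≤ p.choose 2 := Pool.Agent.Helper68.lam_le p k (by omega) (by omega)
  rcases Nat.lt_or_gt_of_ne hks with hlt | hgt
  · -- old term
    obtain ⟨j, hj⟩ := Nat.exists_eq_add_of_lt hlt
    obtain ⟨d, hd⟩ : ∃ d, s * (p - s) = k * (p - k) + d := by
      refine Nat.exists_eq_add_of_le ?_
      obtain ⟨r, hr⟩ := Nat.exists_eq_add_of_le (show 2 * s ≤ p by omega)
      have e1 : p - s = s + r := by omega
      have e2 : p - k = k + 2 * (j + 1) + r := by omega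
      have e3 : s = k + (j + 1) := by omega
      rw [e1, e2, e3]
      nlinarith
    have hdle : (d : ℝ) ≤ s * p := by
      have h1 : d ≤ s * (p - s) := by omega
      have h2 : s * (p - s) ≤ s * p := Nat.mul_le_mul_left _ (Nat.sub_le _ _)
      exact_mod_cast h1.trans h2
    have hpow : a ^ (p.choose 2 - k * (p - k)) * b ^ (k * (p - k)) ≤
        (a ^ (p.choose 2 - s * (p - s)) * b ^ (s * (p - s))) * Real.exp (4 * x * d) := by
      have e1 : p.choose 2 - k * (p - k) = (p.choose 2 - s * (p - s)) + d := by omega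
      rw [e1, hd, pow_add, pow_add]
      have h1 : a ^ d ≤ (Real.exp (4 * x) * b) ^ d := pow_le_pow_left₀ ha0.le hab d
      have h2 : (Real.exp (4 * x) * b) ^ d = Real.exp (4 * x * d) * b ^ d := by
        rw [mul_pow, ← Real.exp_nat_mul]; ring_nf
      rw [h2] at h1
      calc a ^ (p.choose 2 - (k * (p - k) + d)) * a ^ d * b ^ (k * (p - k))
          ≤ a ^ (p.choose 2 - (k * (p - k) + d)) * (Real.exp (4 * x * d) * b ^ d)
            * b ^ (k * (p - k)) := by gcongr
        _ = _ := by ring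
    have hev : ‖ev z (Q k)‖ ≤ Real.exp (-((4 * x * s + x) * p)) * Real.exp (η * p) := by
      have h1 := ev_le_of_dvd (GI.good (hQ k)) (hold k hlt) (hE k (by omega)) z
        (by rw [hz]; linarith)
      rw [hz] at h1
      refine h1.trans ?_
      apply mul_le_mul_of_nonneg_right _ (Real.exp_pos _).le
      have h2 : εo * p ≤ ⌈εo * p⌉₊ := Nat.le_ceil _
      have h4t : 0 < 4 * t := by linarith
      have h3 : Real.log (4 * t) = -Real.log (1 / (4 * t)) := by
        rw [one_div, Real.log_inv, neg_neg]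
      have hL : 0 ≤ Real.log (1 / (4 * t)) := by
        apply Real.log_nonneg
        rw [le_div_iff₀ h4t]; linarith
      have h5 : (4 * t) ^ ⌈εo * p⌉₊ = Real.exp (⌈εo * p⌉₊ * Real.log (4 * t)) := by
        rw [Real.exp_nat_mul, Real.exp_log h4t]
      rw [h5, Real.exp_le_exp, h3]
      have h6 : εo * p * Real.log (1 / (4 * t)) ≤ ⌈εo * p⌉₊ * Real.log (1 / (4 * t)) :=
        mul_le_mul_of_nonneg_right h2 hL
      have h7 : (4 * x * s + x) * p ≤ (εo * Real.log (1 / (4 * t))) * p :=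
        mul_le_mul_of_nonneg_right H2 hp0
      nlinarith
    have hch : (p.choose k : ℝ) ≤ (p : ℝ) ^ (s + 1) :=
      (choose_le p k).trans (pow_le_pow_right₀ hp1 (by omega))
    have hexp3 : Real.exp (4 * x * d) * (Real.exp (-((4 * x * s + x) * p)) * Real.exp (η * p))
        ≤ Real.exp (x * s) * Real.exp (-((x / 2 - η) * p)) := by
      rw [← Real.exp_add, ← Real.exp_add, ← Real.exp_add, Real.exp_le_exp]
      have h1 : 4 * x * d ≤ 4 * x * (s * p) := by gcongr
      have h2 : 0 ≤ x * s := by positivity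
      have h3 : 0 ≤ x * p := by positivity
      nlinarith
    set D := a ^ (p.choose 2 - s * (p - s)) * b ^ (s * (p - s)) with hD
    have hD0 : 0 ≤ D := by positivity
    calc (p.choose k : ℝ) * a ^ (p.choose 2 - k * (p - k)) * b ^ (k * (p - k)) * ‖ev z (Q k)‖
        = (p.choose k : ℝ) * (a ^ (p.choose 2 - k * (p - k)) * b ^ (k * (p - k)))
          * ‖ev z (Q k)‖ := by ring
      _ ≤ (p : ℝ) ^ (s + 1) * (D * Real.exp (4 * x * d))
          * (Real.exp (-((4 * x * s + x) * p)) * Real.exp (η * p)) := by gcongr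
      _ = D * ((p : ℝ) ^ (s + 1) * (Real.exp (4 * x * d)
          * (Real.exp (-((4 * x * s + x) * p)) * Real.exp (η * p)))) := by ring
      _ ≤ D * ((p : ℝ) ^ (s + 1) * (Real.exp (x * s) * Real.exp (-((x / 2 - η) * p)))) := by
          gcongr
      _ = _ := by ring
  · -- new term
    obtain ⟨m, hm⟩ := Nat.exists_eq_add_of_lt hgt
    obtain ⟨r, hr⟩ := Nat.exists_eq_add_of_le hk2
    have hk' : k = s + (m + 1) := by omega
    have hdd : k * (p - k) = s * (p - s) + (m + 1) * (m + 1 + r) := by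
      have e1 : p - s = s + 2 * (m + 1) + r := by omega
      have e2 : p - k = s + (m + 1) + r := by omega
      rw [e1, e2, hk']
      ring
    set d := (m + 1) * (m + 1 + r) with hddef
    have hpow : a ^ (p.choose 2 - k * (p - k)) * b ^ (k * (p - k)) ≤
        (a ^ (p.choose 2 - s * (p - s)) * b ^ (s * (p - s))) * Real.exp (-x * d) := by
      have e1 : p.choose 2 - s * (p - s) = (p.choose 2 - k * (p - k)) + d := by omega
      rw [e1, hdd, pow_add, pow_add]
      have h1 : b ^ d ≤ (Real.exp (-x) * a) ^ d := pow_le_pow_left₀ hb0.le hba d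
      have h2 : (Real.exp (-x) * a) ^ d = Real.exp (-x * d) * a ^ d := by
        rw [mul_pow, ← Real.exp_nat_mul]; ring_nf
      rw [h2] at h1
      calc a ^ (p.choose 2 - (s * (p - s) + d)) * (b ^ (s * (p - s)) * b ^ d)
          ≤ a ^ (p.choose 2 - (s * (p - s) + d)) * (b ^ (s * (p - s)) *
            (Real.exp (-x * d) * a ^ d)) := by gcongr
        _ = _ := by ring
    have hdge : ((m : ℝ) + 1) * ((p : ℝ) - 2 * s) / 2 ≤ d := by
      have e1 : (p : ℝ) - 2 * s = 2 * (m + 1) + r := by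
        have : p = 2 * (s + (m + 1)) + r := by omega
        rw [this]; push_cast; ring
      rw [e1, hddef]
      push_cast
      have hr0 : (0 : ℝ) ≤ r := by positivity
      have hm0 : (0 : ℝ) ≤ m := by positivity
      nlinarith [mul_nonneg (by linarith : (0:ℝ) ≤ m + 1) hr0]
    set u : ℝ := (p : ℝ) * Real.exp (-(x * (p - 2 * s) / 2)) with hu
    have hu0 : 0 ≤ u := by positivity
    have hu1 : u ≤ 1 := by
      have e1 : Real.exp (-(x * (p - 2 * s) / 2)) = Real.exp (x * s) / Real.exp (x * p / 2) := by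
        rw [← Real.exp_sub]; congr 1; ring
      rw [hu, e1, ← mul_div_assoc]
      rw [div_le_one (Real.exp_pos _)]
      exact H4
    have hch : (p.choose k : ℝ) ≤ (p : ℝ) ^ s * (p : ℝ) ^ (m + 1) := by
      rw [← pow_add, ← hk']; exact choose_le p k
    have hexpd : Real.exp (-x * d) ≤ (Real.exp (-(x * (p - 2 * s) / 2))) ^ (m + 1) := by
      rw [← Real.exp_nat_mul, Real.exp_le_exp]
      push_cast
      nlinarith
    have hum : u ^ (m + 1) ≤ u := by
      calc u ^ (m + 1) = u * u ^ m := by ring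
        _ ≤ u * 1 := by
            apply mul_le_mul_of_nonneg_left _ hu0
            exact pow_le_one₀ hu0 hu1
        _ = u := by ring
    set D := a ^ (p.choose 2 - s * (p - s)) * b ^ (s * (p - s)) with hD
    have hD0 : 0 ≤ D := by positivity
    calc (p.choose k : ℝ) * a ^ (p.choose 2 - k * (p - k)) * b ^ (k * (p - k)) * ‖ev z (Q k)‖
        = (p.choose k : ℝ) * (a ^ (p.choose 2 - k * (p - k)) * b ^ (k * (p - k)))
          * ‖ev z (Q k)‖ := by ring
      _ ≤ ((p : ℝ) ^ s * (p : ℝ) ^ (m + 1)) * (D * Real.exp (-x * d))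
          * Real.exp (η * p) := by gcongr
      _ ≤ ((p : ℝ) ^ s * (p : ℝ) ^ (m + 1)) * (D * (Real.exp (-(x * (p - 2 * s) / 2))) ^ (m + 1))
          * Real.exp (η * p) := by gcongr
      _ = D * ((p : ℝ) ^ s * u ^ (m + 1) * Real.exp (η * p)) := by rw [hu, mul_pow]; ring
      _ ≤ D * ((p : ℝ) ^ s * u * Real.exp (η * p)) := by gcongr
      _ = _ := by
          rw [hu, pow_succ]
          have e1 : Real.exp (-(x * (p - 2 * s) / 2)) * Real.exp (η * p)
              = Real.exp (x * s) * Real.exp (-((x / 2 - η) * p)) := by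
            rw [← Real.exp_add, ← Real.exp_add]; congr 1; ring
          calc D * ((p : ℝ) ^ s * (p * Real.exp (-(x * (p - 2 * s) / 2))) * Real.exp (η * p))
              = D * ((p : ℝ) ^ s * p * (Real.exp (-(x * (p - 2 * s) / 2)) * Real.exp (η * p))) := by
                ring
            _ = _ := by rw [e1]; ring

/-- the value of `Q_s` on the arc is small -/
theorem arc_small2 {t η εo x : ℝ} {s p : ℕ} (ht0 : 0 < t) (ht : t ≤ 1 / 8) (hx0 : 0 < x)
    (hη : η ≤ x / 8) (H1 : x * (64 * (s + 1)) ≤ t ^ 2)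
    (H2 : 4 * x * s + x ≤ εo * Real.log (1 / (4 * t)))
    (H3 : 2 * s + 2 ≤ p) (H3' : 16 * s ≤ p)
    (H5 : 2 * (p : ℝ) ^ (s + 2) ≤ Real.exp (x * p / 16))
    {Q : ℕ → PowerSeries ℂ} (hQ : ∀ k, Q k ∈ GI) (hsymm : ∀ k ≤ p, Q (p - k) = Q k)
    (hE : ∀ k ≤ p, ∀ z : ℂ, ‖z‖ ≤ 1 / 4 → ‖ev z (Q k)‖ ≤ Real.exp (η * p))
    {z : ℂ} (hS : ‖∑ k ∈ range (p + 1), (p.choose k : ℂ) * (1 + z) ^ (p.choose 2 - k * (p - k))
          * (1 - z) ^ (k * (p - k)) * ev z (Q k)‖ ≤
        ‖1 + z‖ ^ (p.choose 2) * Real.exp (-(‖z‖ ^ 2 * p / 8)))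
    (hold : ∀ k < s, (PowerSeries.X : PowerSeries ℂ) ^ ⌈εo * p⌉₊ ∣ Q k)
    (hz : ‖z‖ = t) (hre : z.re = x) :
    ‖ev z (Q s)‖ ≤ Real.exp (-(x * p / 8)) := by
  obtain ⟨ha1, hb0, hba, hab⟩ := arc_bounds2 ht hz (by rw [hre]; exact hx0.le)
  rw [hre] at hba hab
  have hp1 : (1 : ℝ) ≤ p := by
    have : 1 ≤ p := by omega
    exact_mod_cast this
  have hp0 : (0 : ℝ) ≤ p := by linarith
  have hs16 : 16 * (s : ℝ) ≤ p := by exact_mod_cast H3'
  have hxp : 0 ≤ x * p := by positivity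
  have hxs : x * s ≤ x * p / 16 := by nlinarith
  have hps : (1 : ℝ) ≤ (p : ℝ) ^ (s + 2) := one_le_pow₀ hp1
  have H4 : (p : ℝ) * Real.exp (x * s) ≤ Real.exp (x * p / 2) := by
    have h0 : (p : ℝ) ≤ (p : ℝ) ^ (s + 2) := by
      calc (p : ℝ) = (p : ℝ) ^ 1 := (pow_one _).symm
        _ ≤ (p : ℝ) ^ (s + 2) := pow_le_pow_right₀ hp1 (by omega)
    calc (p : ℝ) * Real.exp (x * s) ≤ Real.exp (x * p / 16) * Real.exp (x * p / 16) := by
          apply mul_le_mul _ (Real.exp_le_exp.mpr hxs) (Real.exp_pos _).le (Real.exp_pos _).le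
          linarith
      _ = Real.exp (x * p / 8) := by rw [← Real.exp_add]; congr 1; ring
      _ ≤ Real.exp (x * p / 2) := by
          rw [Real.exp_le_exp]; linarith
  set D := ‖1 + z‖ ^ (p.choose 2 - s * (p - s)) * ‖1 - z‖ ^ (s * (p - s)) with hD
  set B := (p : ℝ) ^ (s + 1) * Real.exp (x * s) * Real.exp (-((x / 2 - η) * p)) with hB
  have hD0 : 0 < D := by positivity
  have hB0 : 0 ≤ B := by positivity
  have hbound : ∀ k ∈ ((range (p + 1)).erase s).erase (p - s), ‖trm p Q z k‖ ≤ D * B := by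
    intro k hk
    simp only [mem_erase, mem_range] at hk
    obtain ⟨h1, h2, h3⟩ := hk
    rcases le_or_gt (2 * k) p with h | h
    · exact trm_bound2 ht0 ht hx0 H2 H3 H4 hQ hE hold hz hre h h2
    · rw [← trm_symm hsymm z (show k ≤ p by omega)]
      exact trm_bound2 ht0 ht hx0 H2 H3 H4 hQ hE hold hz hre (by omega) (by omega)
  have hmem1 : s ∈ range (p + 1) := by simp; omega
  have hmem2 : p - s ∈ (range (p + 1)).erase s := by
    simp only [mem_erase, mem_range]; omega
  have hsum : ∑ k ∈ range (p + 1), trm p Q z k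
      = 2 * trm p Q z s + ∑ k ∈ ((range (p + 1)).erase s).erase (p - s), trm p Q z k := by
    rw [← Finset.add_sum_erase _ _ hmem1, ← Finset.add_sum_erase _ _ hmem2,
      trm_symm hsymm z (show s ≤ p by omega)]
    ring
  have hrest : ‖∑ k ∈ ((range (p + 1)).erase s).erase (p - s), trm p Q z k‖ ≤ p * (D * B) := by
    refine (norm_sum_le _ _).trans ?_
    refine (Finset.sum_le_card_nsmul _ _ _ hbound).trans ?_
    rw [nsmul_eq_mul]
    apply mul_le_mul_of_nonneg_right _ (by positivity)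
    have hc : (((range (p + 1)).erase s).erase (p - s)).card ≤ p := by
      rw [Finset.card_erase_of_mem hmem2, Finset.card_erase_of_mem hmem1, card_range]
      omega
    exact_mod_cast hc
  have hNs : s * (p - s) ≤ p.choose 2 := Pool.Agent.Helper68.lam_le p s (by omega) (by omega)
  -- the right side of the hypothesis
  have hS' : ‖∑ k ∈ range (p + 1), trm p Q z k‖ ≤ D * Real.exp (-(t ^ 2 * p / 16)) := by
    refine hS.trans ?_
    have h1 : ‖1 + z‖ ^ (p.choose 2) ≤ D * Real.exp (4 * x * (s * p)) := by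
      have e1 : p.choose 2 = (p.choose 2 - s * (p - s)) + s * (p - s) := by omega
      have h2 : ‖1 + z‖ ^ (s * (p - s)) ≤ (Real.exp (4 * x) * ‖1 - z‖) ^ (s * (p - s)) :=
        pow_le_pow_left₀ (by linarith) hab _
      have h3 : (Real.exp (4 * x) * ‖1 - z‖) ^ (s * (p - s)) ≤
          Real.exp (4 * x * (s * p)) * ‖1 - z‖ ^ (s * (p - s)) := by
        rw [mul_pow, ← Real.exp_nat_mul]
        apply mul_le_mul_of_nonneg_right _ (by positivity)
        rw [Real.exp_le_exp]
        have h7 : ((s * (p - s) : ℕ) : ℝ) ≤ s * p := by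
          have : s * (p - s) ≤ s * p := Nat.mul_le_mul_left _ (Nat.sub_le _ _)
          exact_mod_cast this
        have h8 : ((s * (p - s) : ℕ) : ℝ) * (4 * x) ≤ (s * p) * (4 * x) := by gcongr
        linarith
      calc ‖1 + z‖ ^ (p.choose 2)
          = ‖1 + z‖ ^ (p.choose 2 - s * (p - s)) * ‖1 + z‖ ^ (s * (p - s)) := by
            rw [← pow_add, ← e1]
        _ ≤ ‖1 + z‖ ^ (p.choose 2 - s * (p - s)) *
            (Real.exp (4 * x * (s * p)) * ‖1 - z‖ ^ (s * (p - s))) := by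
            apply mul_le_mul_of_nonneg_left (h2.trans h3) (by positivity)
        _ = _ := by rw [hD]; ring
    calc ‖1 + z‖ ^ (p.choose 2) * Real.exp (-(‖z‖ ^ 2 * p / 8))
        ≤ (D * Real.exp (4 * x * (s * p))) * Real.exp (-(‖z‖ ^ 2 * p / 8)) := by gcongr
      _ = D * Real.exp (4 * x * (s * p) - t ^ 2 * p / 8) := by
          rw [mul_assoc, ← Real.exp_add, hz]; congr 2
      _ ≤ D * Real.exp (-(t ^ 2 * p / 16)) := by
          apply mul_le_mul_of_nonneg_left _ hD0.le
          rw [Real.exp_le_exp]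
          have h1 : (x * (64 * (s + 1))) * p ≤ t ^ 2 * p := by gcongr
          have h2 : 0 ≤ x * p := hxp
          nlinarith
  have h2 : 2 * ‖trm p Q z s‖ ≤ D * Real.exp (-(t ^ 2 * p / 16)) + p * (D * B) := by
    have e1 : 2 * trm p Q z s = ∑ k ∈ range (p + 1), trm p Q z k
        - ∑ k ∈ ((range (p + 1)).erase s).erase (p - s), trm p Q z k := by
      rw [hsum]; ring
    have e2 : ‖2 * trm p Q z s‖ = 2 * ‖trm p Q z s‖ := by simp
    rw [← e2, e1]
    exact (norm_sub_le _ _).trans (add_le_add hS' hrest)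
  have h3 : D * ‖ev z (Q s)‖ ≤ ‖trm p Q z s‖ := by
    rw [norm_trm]
    have hc : (1 : ℝ) ≤ p.choose s := by
      have : 1 ≤ p.choose s := Nat.choose_pos (by omega)
      exact_mod_cast this
    calc D * ‖ev z (Q s)‖ = 1 * (D * ‖ev z (Q s)‖) := by ring
      _ ≤ p.choose s * (D * ‖ev z (Q s)‖) := by gcongr
      _ = _ := by rw [hD]; ring
  have h11 : (p : ℝ) * B ≤ Real.exp (-(x * p / 8)) := by
    have e1 : (p : ℝ) * B = ((p : ℝ) ^ (s + 2) * Real.exp (x * s))
        * Real.exp (-((x / 2 - η) * p)) := by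
      rw [hB]; ring
    rw [e1]
    calc ((p : ℝ) ^ (s + 2) * Real.exp (x * s)) * Real.exp (-((x / 2 - η) * p))
        ≤ (Real.exp (x * p / 16) * Real.exp (x * p / 16)) * Real.exp (-((x / 2 - η) * p)) := by
          apply mul_le_mul_of_nonneg_right _ (Real.exp_pos _).le
          apply mul_le_mul _ (Real.exp_le_exp.mpr hxs) (Real.exp_pos _).le (Real.exp_pos _).le
          linarith
      _ = Real.exp (x * p / 8 - (x / 2 - η) * p) := by
          rw [← Real.exp_add, ← Real.exp_add]; congr 1; ring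
      _ ≤ _ := by
          rw [Real.exp_le_exp]
          have h12 : η * p ≤ x / 8 * p := by gcongr
          nlinarith
  have h14 : Real.exp (-(t ^ 2 * (p : ℝ) / 16)) ≤ Real.exp (-(x * p / 8)) := by
    rw [Real.exp_le_exp]
    have h1 : (x * (64 * (s + 1))) * p ≤ t ^ 2 * p := by gcongr
    have h3 : 0 ≤ x * p * s := by positivity
    nlinarith
  have h15 : 2 * (D * ‖ev z (Q s)‖) ≤ D * (2 * Real.exp (-(x * p / 8))) := by
    calc 2 * (D * ‖ev z (Q s)‖) ≤ 2 * ‖trm p Q z s‖ := by gcongr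
      _ ≤ D * Real.exp (-(t ^ 2 * p / 16)) + p * (D * B) := h2
      _ = D * Real.exp (-(t ^ 2 * p / 16)) + D * (p * B) := by ring
      _ ≤ D * Real.exp (-(x * p / 8)) + D * Real.exp (-(x * p / 8)) := by gcongr
      _ = _ := by ring
  have h16 : D * ‖ev z (Q s)‖ ≤ D * Real.exp (-(x * p / 8)) := by linarith
  exact le_of_mul_le_mul_left h16 hD0

theorem dominance_aux2 (hORD : G_ORD) (s : ℕ) : ∃ ε η t₀ : ℝ, 0 < ε ∧ 0 < η ∧ 0 < t₀ ∧
    ∃ p₀ : ℕ, ∀ p ≥ p₀, ∀ Q : ℕ → PowerSeries ℂ,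
    (∀ k, Q k ∈ GI) → (∀ k ≤ p, Q (p - k) = Q k) →
    (∀ k ≤ p, ∀ z : ℂ, ‖z‖ ≤ 1 / 4 → ‖ev z (Q k)‖ ≤ Real.exp (η * p)) →
    (∀ z : ℂ, ‖z‖ ≤ 1 / 4 → t₀ ≤ z.re →
      ‖∑ k ∈ range (p + 1), (p.choose k : ℂ) * (1 + z) ^ (p.choose 2 - k * (p - k))
          * (1 - z) ^ (k * (p - k)) * ev z (Q k)‖ ≤
        ‖1 + z‖ ^ (p.choose 2) * Real.exp (-(‖z‖ ^ 2 * p / 8))) →
    ∀ k < s, (PowerSeries.X : PowerSeries ℂ) ^ ⌈ε * p⌉₊ ∣ Q k := by
  induction s with
  | zero =>
    exact ⟨1, 1, 1, one_pos, one_pos, one_pos, 0, fun p _ Q _ _ _ _ k hk => absurd hk (by omega)⟩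
  | succ s ih =>
    obtain ⟨εo, ηo, τo, hεo, hηo, hτo, p₁, ih⟩ := ih
    set t : ℝ := min (1 / 8) (Real.exp (-(2 / εo)) / 4) with ht
    have ht0 : 0 < t := by
      rw [ht]; positivity
    have ht8 : t ≤ 1 / 8 := min_le_left _ _
    have hte : t ≤ Real.exp (-(2 / εo)) / 4 := min_le_right _ _
    have hs1 : (0 : ℝ) < 64 * (s + 1) := by positivity
    set x₂ : ℝ := t ^ 2 / (64 * (s + 1)) with hx₂
    set x₁ : ℝ := x₂ / 2 with hx₁
    have hx₂0 : 0 < x₂ := by rw [hx₂]; positivity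
    have hx₁0 : 0 < x₁ := by rw [hx₁]; positivity
    have hx₂e : x₂ * (64 * (s + 1)) = t ^ 2 := by
      rw [hx₂]; field_simp
    have hx₂t : x₂ ≤ t := by
      have h1 : x₂ * 1 ≤ x₂ * (64 * (s + 1)) := by
        apply mul_le_mul_of_nonneg_left _ hx₂0.le
        have : (0 : ℝ) ≤ s := by positivity
        linarith
      have h2 : t ^ 2 ≤ t := by nlinarith
      linarith
    have hH2 : 2 ≤ εo * Real.log (1 / (4 * t)) := by
      have h1 : 2 / εo ≤ Real.log (1 / (4 * t)) := by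
        rw [Real.le_log_iff_exp_le (by positivity), le_div_iff₀ (by positivity)]
        calc Real.exp (2 / εo) * (4 * t) ≤ Real.exp (2 / εo) * Real.exp (-(2 / εo)) := by
              gcongr; linarith
          _ = 1 := by rw [← Real.exp_add]; simp
      have h2 : εo * (2 / εo) ≤ εo * Real.log (1 / (4 * t)) := by gcongr
      have h3 : εo * (2 / εo) = 2 := by field_simp
      linarith
    obtain ⟨εn, ηn, hεn, hηn, hord⟩ := hORD t x₁ x₂ (x₁ / 8) ht0 ht8 hx₁0
      (by rw [hx₁]; linarith) hx₂t (by positivity)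
    have hev : ∀ᶠ p : ℕ in Filter.atTop,
        2 * (p : ℝ) ^ (s + 2) ≤ Real.exp (x₁ * p / 16) := by
      have h1 := (isLittleO_pow_exp_pos_mul_atTop (s + 2)
        (show 0 < x₁ / 16 by positivity)).comp_tendsto (tendsto_natCast_atTop_atTop (R := ℝ))
      have h2 := h1.bound (show (0 : ℝ) < 1 / 2 by norm_num)
      filter_upwards [h2] with p hp
      simp only [Function.comp_apply, norm_pow, Real.norm_eq_abs, Real.abs_exp, Nat.abs_cast] at hp
      have e : x₁ / 16 * (p : ℝ) = x₁ * p / 16 := by ring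
      rw [e] at hp
      linarith
    obtain ⟨p₂, hp₂⟩ := Filter.eventually_atTop.mp hev
    refine ⟨min εo εn, min ηo (min ηn (x₁ / 8)), min τo x₁, by positivity, by positivity,
      by positivity, max (max p₁ p₂) (16 * s + 2), ?_⟩
    intro p hp Q hQ hsymm hE hS k hk
    have hpp1 : p₁ ≤ p := (le_max_left _ _).trans ((le_max_left _ _).trans hp)
    have hpp2 : p₂ ≤ p := (le_max_right _ _).trans ((le_max_left _ _).trans hp)
    have hpp3 : 16 * s + 2 ≤ p := (le_max_right _ _).trans hp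
    have hp0 : (0 : ℝ) < p := by
      have : 0 < p := by omega
      exact_mod_cast this
    have hE' : ∀ η', min ηo (min ηn (x₁ / 8)) ≤ η' → ∀ k ≤ p, ∀ z : ℂ, ‖z‖ ≤ 1 / 4 →
        ‖ev z (Q k)‖ ≤ Real.exp (η' * p) := fun η' hη' k hk z hz => (hE k hk z hz).trans (by
      rw [Real.exp_le_exp]
      exact mul_le_mul_of_nonneg_right hη' hp0.le)
    have hold := ih p hpp1 Q hQ hsymm (hE' ηo (min_le_left _ _))
      (fun z hz hre => hS z hz ((min_le_left _ _).trans hre))
    rcases Nat.lt_succ_iff_lt_or_eq.mp hk with hlt | rfl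
    · refine (pow_dvd_pow _ ?_).trans (hold k hlt)
      apply Nat.ceil_mono
      exact mul_le_mul_of_nonneg_right (min_le_left _ _) hp0.le
    · have key := hord p hp0 (Q k) (hQ k)
        (hE' ηn ((min_le_right _ _).trans (min_le_left _ _)) k (by omega)) (by
        intro z hz hre1 hre2
        have hzre : 0 < z.re := lt_of_lt_of_le hx₁0 hre1
        have hmul : z.re * (64 * ((k : ℝ) + 1)) ≤ t ^ 2 := by
          rw [← hx₂e]; gcongr
        have hsmall := arc_small2 (t := t) (x := z.re) (η := x₁ / 8) (εo := εo) (s := k) (p := p)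
          ht0 ht8 hzre (by linarith) hmul (by
            have h1 : 4 * z.re * k + z.re ≤ z.re * (64 * ((k : ℝ) + 1)) := by
              have h2 : 0 ≤ z.re * k := by positivity
              nlinarith
            have h3 : t ^ 2 ≤ 1 := by nlinarith
            linarith) (by omega) (by omega) (by
            refine (hp₂ p hpp2).trans ?_
            rw [Real.exp_le_exp]
            have : x₁ * p ≤ z.re * p := by gcongr
            linarith) hQ hsymm
          (hE' (x₁ / 8) ((min_le_right _ _).trans (min_le_right _ _)))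
          (hS z (by rw [hz]; linarith) ((min_le_right _ _).trans hre1)) hold hz rfl
        refine hsmall.trans ?_
        rw [Real.exp_le_exp]
        have : x₁ * p ≤ z.re * p := by gcongr
        linarith)
      refine (pow_dvd_pow _ ?_).trans key
      apply Nat.ceil_mono
      exact mul_le_mul_of_nonneg_right (min_le_right _ _) hp0.le

theorem gDOM (hORD : G_ORD) : G_DOM := by
  intro s
  obtain ⟨ε, η, t₀, h1, h2, h3, p₀, h⟩ := dominance_aux2 hORD (s + 1)
  exact ⟨ε, η, t₀, h1, h2, h3, p₀, fun p hp Q a b c d k hk => h p hp Q a b c d k (by omega)⟩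

end Pool.Agent.Helper24.EG
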