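import Pool.Agent.Helper52.Final
import Pool.Agent.Helper33.EvenGraphSum

/-!
# Project EG (MP_98cfca_co, Q2): connected even graphs have no bounded closed form; definitions
-/

set_option autoImplicit false

namespace Pool.Agent.Helper24.EG

open Finset Pool.Agent.Helper52

noncomputable section

open Classical in
/-- `z ^ |E(G)|` if `G` is even, otherwise `0` -/
def wG {V : Type} (z : ℂ) (G : SimpleGraph V) : ℂ :=
  if ∀ v, Even (G.neighborSet v).ncard then z ^ G.edgeSet.ncard else 0

open Classical in
/-- `z ^ |E(G)|` if `G` is even and connected, otherwise `0` -/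
def cG {V : Type} (z : ℂ) (G : SimpleGraph V) : ℂ :=
  if (∀ v, Even (G.neighborSet v).ncard) ∧ G.Connected then z ^ G.edgeSet.ncard else 0

/-- generating function of the labelled even graphs -/
def Wn (n : ℕ) (z : ℂ) : ℂ := ∑ G : SimpleGraph (Fin n), wG z G

/-- generating function of the labelled connected even graphs -/
def Cn (n : ℕ) (z : ℂ) : ℂ := ∑ G : SimpleGraph (Fin n), cG z G

end

end Pool.Agent.Helper24.EG
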