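import Pool.Agent.Helper24.EG.DOM
import Pool.Agent.Helper86.EG.TRANS
import Pool.Agent.Helper87.EG.GLUE
import Pool.Agent.Helper16.EG.REC
import Pool.Agent.Helper36.EG.N1
import Pool.Agent.Helper77.EG.N2
import Pool.Agent.Helper22.EG.N3
import Pool.Agent.Helper59.EG.DB
import Pool.Agent.Helper49.EG.ORD
import Pool.Agent.Helper23.EG.CORE
import Pool.Agent.Helper62.EG.MAIN
import Pool.Agent.Helper18.EG.LC
import Pool.Agent.Helper54.EG.BURN

/-!
# Project EG: assembly
-/

set_option autoImplicit false

namespace Pool.Agent.Helper24.EG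

/-- The generating function of the labelled connected even graphs on `p` vertices, for large `p`, is
not a sum of `M` real multiples of products of real powers of the polynomials `1 ± x^k`. -/
theorem main : G_MAIN := by
  have h3 : G_N3 := Pool.Agent.Helper22.EG.gN3
  have hR : G_REC := Pool.Agent.Helper16.EG.gREC Pool.Agent.Helper86.EG.gTRANS
    Pool.Agent.Helper87.EG.gGLUE
  have hDB : G_DB := Pool.Agent.Helper59.EG.gDB hR Pool.Agent.Helper36.EG.gN1
    (Pool.Agent.Helper77.EG.gN2 h3) h3
  exact Pool.Agent.Helper62.EG.gMAIN hDB (gDOM Pool.Agent.Helper49.EG.gORD)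
    (Pool.Agent.Helper23.EG.gCORE Pool.Agent.Helper18.EG.gLC)

theorem burn : G_BURN := Pool.Agent.Helper54.EG.gBURN

end Pool.Agent.Helper24.EG
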