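import Pool.Agent.Helper24.EG.Defs

/-!
# Project EG (MP_98cfca_co, Q2): goals

Target: for every `M`, for all large `p`, the generating function `V_id(x) = C_p(x)` of the labelled
connected even (Eulerian) graphs on `p` vertices is not a sum of `M` real multiples of products of
real powers of `1 ± x^k` (equality on `(0,1)`).

Idea.  Let `a = |1+z|`, `b = |1-z|`, `T_k = (1+z)^(C(p,2)-k(p-k)) (1-z)^(k(p-k))`.  We know
`2^p W_p = Σ_k C(p,k) T_k` (`Helper33/EvenGraphSum.lean`).  The disconnected part `D = W_p - C_p` has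
relative size `a^(-p)` and not more, as is shown with the recursion `G_REC` only.  In the old proof
(`Helper52/Final.lean`, `Helper68/Dominance.lean`) the arcs were `|z| = t`, `Re z ≥ t/2`; there `b/a` is
about `exp(-2 Re z)`, smaller than `1/a`, and `D` would disturb.  We now use arcs `|z| = t`,
`x₁ ≤ Re z ≤ x₂`, `x₂` of order `t²/(64 (s+1))` (near the imaginary axis!): there `log (a/b)` is at most
`4 x₂`, much smaller than `log a ≥ t²/4`.  So all `T_k`, `k ≤ s`, dominate `D`.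
-/

set_option autoImplicit false

namespace Pool.Agent.Helper24.EG

open Finset Pool.Agent.Helper52

noncomputable section

/-! ## Graphs -/

/-- **TRANS** (transport to `Fin n`).  Proof.  Choose `e : V ≃ Fin (card V)`; the bijection
`e.simpleGraph : SimpleGraph V ≃ SimpleGraph (Fin (card V))` (or `SimpleGraph.map e.toEmbedding`)
preserves the weights: `SimpleGraph.Iso.map e G : G ≃g G.map e`, and isomorphic graphs have the same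
degrees, the same number of edges, and connectedness is preserved (`SimpleGraph.Iso.connected_iff`).
It is convenient to prove first: `G ≃g H` implies `wG z G = wG z H` and `cG z G = cG z H`. -/
def G_TRANS : Prop := ∀ (V : Type) [Fintype V] [DecidableEq V] (z : ℂ),
  (∑ G : SimpleGraph V, wG z G) = Wn (Fintype.card V) z ∧
  (∑ G : SimpleGraph V, cG z G) = Cn (Fintype.card V) z

/-- **GLUE** (a graph with the component `S` of `v₀` is a connected graph on `S` and a graph on the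
complement).  Proof.  Let `X` be the set of the graphs `G` with `v ∈ S ↔ G.Reachable v₀ v`.  The map
`G ↦ (G.induce S, G.induce Sᶜ)` (i.e. `G.comap Subtype.val` twice) is a bijection of `X` onto
`{G₁ : G₁.Connected} × {G₂}`: inverse `(G₁, G₂) ↦ G₁.map val ⊔ G₂.map val` (adjacency: `Adj u v` iff
both are in `S` and adjacent in `G₁` or both are in the complement and adjacent in `G₂`).  For `G ∈ X`
there are no edges between `S` and the complement (`Reachable.trans`), so `G` is the glued graph, the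
degrees of `G` are those of the two induced graphs, and `|E(G)| = |E(G₁)| + |E(G₂)|`.  `G₁` is connected:
for `v ∈ S` a walk in `G` from `v₀` to `v` stays in `S` (every vertex of it is reachable from `v₀`), use
`SimpleGraph.Walk.induce`; conversely in the glued graph the set of vertices reachable from `v₀` is `S`
(`S` is closed under adjacency; `Reachable.map` of the embedding of `G₁`).  So
`wG z G = cG z G₁ * wG z G₂` and the sum is a product (`Finset.sum_bij'`, `Finset.sum_mul_sum`,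
`Finset.sum_product'`; the graphs `G₁` which are not connected have weight `0`).  The files
`Helper33/EvenGraphSum.lean` (`ed`, `dg`, `sum_graph_eq`, `card_ed`) may help. -/
def G_GLUE : Prop := ∀ (V : Type) [Fintype V] [DecidableEq V] (v₀ : V) (S : Finset V), v₀ ∈ S →
  ∀ z : ℂ, (open Classical in
    ∑ G : SimpleGraph V, if (∀ v, v ∈ S ↔ G.Reachable v₀ v) then wG z G else 0) =
    (∑ G₁ : SimpleGraph {v // v ∈ S}, cG z G₁) * ∑ G₂ : SimpleGraph {v // v ∉ S}, wG z G₂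

/-- **REC** (the component of the vertex `0`; uses `G_TRANS`, `G_GLUE`).  Proof.  `V = Fin (n+1)`,
`v₀ = 0`.  For each `G` there is exactly one `S : Finset V` with `v ∈ S ↔ G.Reachable 0 v`, it
contains `0`.  So `Wn (n+1) z = Σ_{S ∋ 0} (Σ_{G with this S} wG z G)`; by `G_GLUE` and `G_TRANS` the
inner sum is `Cn |S| z * Wn (n+1-|S|) z`.  There are `C(n,j)` sets `S ∋ 0` with `|S| = j+1`
(`S ↦ S.erase 0`, `Finset.sum_powerset_apply_card` for the powerset of `univ.erase 0`). -/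
def G_REC : Prop := ∀ (n : ℕ) (z : ℂ), Wn (n + 1) z =
  ∑ j ∈ range (n + 1), (n.choose j : ℂ) * Cn (j + 1) z * Wn (n - j) z

/-! ## Bounds for the disconnected part -/

/-- **N1**.  Proof.  `a = ‖1+z‖ ≤ 3/2`, `b = ‖1-z‖`; `a² - b² = 4 Re z ≥ 4 c`, so
`b²/a² ≤ 1 - 16c/9 ≤ exp(-c)`, `b ≤ ρ a` with `ρ = exp(-c/2) < 1`.  By `even_graph_sum`
`2^n ‖Wn n z‖ ≤ Σ_k C(n,k) a^(C(n,2)-k(n-k)) b^(k(n-k)) ≤ a^C(n,2) Σ_k C(n,k) ρ^(k(n-k))`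
(`Helper52.lam_le`: `k(n-k) ≤ C(n,2)` for `n ≥ 2`; `n = 0, 1` directly).  The sum is bounded
independently of `n`: for `k ≤ n/2` (the terms `k` and `n-k` are equal) `C(n,k) ≤ n^k` and
`k(n-k) ≥ k n/2`, so the term is `≤ (n ρ^(n/2))^k`; if `n` is so large that `n ρ^(n/2) ≤ 1/2`, the sum is
`≤ 2 Σ 2^(-k) ≤ 4`; for the finitely many other `n` the sum is `≤ 2^n`. -/
def G_N1 : Prop := ∀ c : ℝ, 0 < c → ∃ K : ℝ, 1 ≤ K ∧ ∀ (n : ℕ) (z : ℂ), ‖z‖ ≤ 1 / 2 → c ≤ z.re →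
  2 ^ n * ‖Wn n z‖ ≤ K * ‖1 + z‖ ^ (n.choose 2)

/-- **N3**.  Proof.  Let `m = min(j, n-j) ≥ 1`.  `C(n-1,j-1) ≤ n^m` (`C(n-1,j-1) ≤ (n-1)^(j-1)` and
`C(n-1,j-1) = C(n-1,n-j) ≤ (n-1)^(n-j)`), and `j(n-j) ≥ m n/2`.  So the left side is
`≤ (n exp(-αn/2))^m`.  If `n ≥ n₁(α₀)`, where `n exp(-α₀ n/2) ≤ 1` for all `n ≥ n₁`, this is
`≤ n exp(-αn/2)`.  For `n < n₁`: `j(n-j) ≥ n-1 ≥ n/2` (`n ≥ 2`), and `C(n-1,j-1) ≤ 2^n₁`.  `K = 2^n₁`. -/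
def G_N3 : Prop := ∀ α₀ : ℝ, 0 < α₀ → ∃ K : ℝ, 1 ≤ K ∧ ∀ α : ℝ, α₀ ≤ α → ∀ n j : ℕ, 1 ≤ j → j < n →
  ((n - 1).choose (j - 1) : ℝ) * Real.exp (-(α * (j * (n - j : ℕ)))) ≤
    K * n * Real.exp (-(α * n / 2))

/-- **N2** (uses `G_N3`).  Proof.  Let `S_n = Σ_{1 ≤ j < n} C(n-1,j-1) exp(-α j(n-j))`; by `G_N3`
`S_n ≤ K₃ n² exp(-α₀ n/2)`, so there is `n₀` (depending on `α₀, K'`) with `K' S_n ≤ 1/2` for all
`n ≥ n₀`, `α ≥ α₀`.  Always `S_n ≤ 2^n`.  With `M_n = (2 K' 2^n₀)^n`: for `1 ≤ n ≤ n₀` by strong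
induction `c n ≤ K' + K' 2^n₀ M_(n-1) ≤ M_n`.  `K = max (2 K') M_n₀`: for `n > n₀` by strong induction
`c n ≤ K' + K' S_n K ≤ K/2 + K/2`. -/
def G_N2 : Prop := ∀ α₀ K' : ℝ, 0 < α₀ → 1 ≤ K' → ∃ K : ℝ, 1 ≤ K ∧ ∀ α : ℝ, α₀ ≤ α →
  ∀ c : ℕ → ℝ, (∀ n, 0 ≤ c n) →
  (∀ n, 1 ≤ n → c n ≤ K' + K' * ∑ j ∈ Ico 1 n,
    ((n - 1).choose (j - 1) : ℝ) * c j * Real.exp (-(α * (j * (n - j : ℕ))))) →
  ∀ n, 1 ≤ n → c n ≤ K

/-- **DB** (bound for the disconnected part; uses `G_REC`, `G_N1`, `G_N2`, `G_N3`).  Proof.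
`a = ‖1+z‖ ≥ 1 + c`, `α = log a ≥ α₀ = log (1+c)`.  `w_n = 2^n ‖Wn n z‖ a^(-C(n,2)) ≤ K₁` (`G_N1`),
`c_n = 2^n ‖Cn n z‖ a^(-C(n,2))` for `n ≥ 1`.  `G_REC` with `n - 1` in place of `n` and `j - 1` in place
of `j`: `Wn n z - Cn n z = Σ_{1 ≤ j < n} C(n-1,j-1) Cn j z Wn (n-j) z` (the term `j = n` is
`Cn n z * Wn 0 z`, `Wn 0 z = 1`).  As `C(n,2) = C(j,2) + C(n-j,2) + j(n-j)`,
`2^n ‖Wn n z - Cn n z‖ a^(-C(n,2)) ≤ Σ C(n-1,j-1) c_j w_(n-j) exp(-α j(n-j))`.  So `c_n` satisfies the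
hypothesis of `G_N2` with `K' = K₁`: `c_n ≤ K₂`.  Then with `G_N3` the sum is
`≤ K₁ K₂ K₃ n² exp(-αn/2)`.  Finally `a² ≥ 1 + ‖z‖²` (`Re z ≥ 0`), so
`α ≥ (1/2) log(1+‖z‖²) ≥ (1/2) ‖z‖²/(1+‖z‖²) ≥ (2/5) ‖z‖²`. -/
def G_DB : Prop := ∀ c : ℝ, 0 < c → ∃ K : ℝ, 1 ≤ K ∧ ∀ (n : ℕ) (z : ℂ), 1 ≤ n → ‖z‖ ≤ 1 / 2 →
  c ≤ z.re → 2 ^ n * ‖Wn n z - Cn n z‖ ≤
    K * n ^ 2 * ‖1 + z‖ ^ (n.choose 2) * Real.exp (-(‖z‖ ^ 2 * n / 5))

/-! ## Dominance -/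

/-- **ORD** (a series with integer coefficients which is small on an arc has large order; adapt
`Helper68.order_large` in `Helper68/Dominance.lean`).

Proof.  Choose `N ≥ 1` with `2π t/N ≤ x₂ - x₁`, `η = κ/(2N)`, `ε = κ/(4 N log(1/t))`.  Let
`n < ⌈ε p⌉` be the order of `Q`, `G = shift n Q`, `|ev 0 G| ≥ 1` (`GI.one_le_norm`),
`Φ(z) = ∏_{j<N} ev (ω^j z) G`, `ω = exp(2πi/N)`.  On `|w| = t`: every factor is `≤ exp(ηp)/t^n`, and at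
least one is `≤ exp(-κp)/t^n`: write `w = t exp(iφ)`, `θ₂ = arccos(x₂/t)`, `θ₁ = arccos(x₁/t)`,
`θ₁ - θ₂ ≥ cos θ₂ - cos θ₁ = (x₂-x₁)/t ≥ 2π/N`; with `m = ⌈(θ₂-φ)N/(2π)⌉` the number
`φ + 2πm/N` is in `[θ₂, θ₁]`, so `Re (ω^m w)` is in `[x₁,x₂]`, and `ω^m = ω^(m mod N)`.  Maximum
principle: `1 ≤ |Φ(0)| ≤ exp((N-1)ηp - κp)/t^(nN)`, so
`0 ≤ (N-1)ηp - κp + nN log(1/t) < κp/2 - κp + κp/4 < 0`, a contradiction. -/
def G_ORD : Prop := ∀ t x₁ x₂ κ : ℝ, 0 < t → t ≤ 1 / 8 → 0 < x₁ → x₁ < x₂ → x₂ ≤ t → 0 < κ →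
  ∃ ε η : ℝ, 0 < ε ∧ 0 < η ∧ ∀ p : ℝ, 0 < p → ∀ Q ∈ GI,
    (∀ z : ℂ, ‖z‖ ≤ 1 / 4 → ‖ev z Q‖ ≤ Real.exp (η * p)) →
    (∀ z : ℂ, ‖z‖ = t → x₁ ≤ z.re → z.re ≤ x₂ → ‖ev z Q‖ ≤ Real.exp (-(κ * p))) →
    (PowerSeries.X : PowerSeries ℂ) ^ ⌈ε * p⌉₊ ∣ Q

/-- The dominance statement. -/
def Dom2 (s : ℕ) : Prop := ∃ ε η t₀ : ℝ, 0 < ε ∧ 0 < η ∧ 0 < t₀ ∧ ∃ p₀ : ℕ, ∀ p ≥ p₀,
    ∀ Q : ℕ → PowerSeries ℂ,
    (∀ k, Q k ∈ GI) → (∀ k ≤ p, Q (p - k) = Q k) →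
    (∀ k ≤ p, ∀ z : ℂ, ‖z‖ ≤ 1 / 4 → ‖ev z (Q k)‖ ≤ Real.exp (η * p)) →
    (∀ z : ℂ, ‖z‖ ≤ 1 / 4 → t₀ ≤ z.re →
      ‖∑ k ∈ range (p + 1), (p.choose k : ℂ) * (1 + z) ^ (p.choose 2 - k * (p - k))
          * (1 - z) ^ (k * (p - k)) * ev z (Q k)‖ ≤
        ‖1 + z‖ ^ (p.choose 2) * Real.exp (-(‖z‖ ^ 2 * p / 8))) →
    ∀ k ≤ s, (PowerSeries.X : PowerSeries ℂ) ^ ⌈ε * p⌉₊ ∣ Q k

/-- **DOM** (uses `G_ORD`; adapt `trm_bound`, `arc_small`, `dominance_aux` of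
`Helper68/Dominance.lean`; taken by helper24).

Proof.  Induction on `s` (statement for all `k < s`).  Step: `t` small, `x₂ = t²/(64(s+1))`,
`x₁ = x₂/2`.  On the arc, `x = Re z`: `1 ≤ a`, `b ≤ exp(-x) a`, `a ≤ exp(4x) b`.  Relative to
`D = a^(C(p,2)-s(p-s)) b^(s(p-s))`: the old terms `k < s` are `≤ poly * exp(4xsp) (4t)^(ε₀p) exp(ηp)`,
small if `ε₀ log(1/(4t)) ≥ 1`, say; the new terms `s < k ≤ p/2` as in `trm_bound` (`exp(-x(p-2s)/4)` each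
step); the right side of the hypothesis is `≤ exp(4xsp - t²p/8) ≤ exp(-t²p/16)`.  So
`|Q_s| ≤ exp(-x₁p/8)` on the arc; `G_ORD`. -/
def G_DOM : Prop := ∀ s : ℕ, Dom2 s

/-! ## The core argument -/

/-- **LC** (local Cauchy estimate for Euler derivatives).  Proof.  `i = 0` trivial.  For `i ≥ 1` show by
induction on `m ≤ i`: `‖ev w ((theta ℂ)^[m] F)‖ ≤ (i/δ)^m B` for all `w` with `‖w - z‖ ≤ δ - m (δ/i)`.
Step: `ev_theta`: `ev w (θ f) = w * deriv (fun u => ev u f) w`, `‖w‖ ≤ 1`, and Cauchy's estimate on the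
disc of radius `δ/i` around `w` (`Complex.norm_deriv_le_of_forall_mem_sphere_norm_le`,
`ev_differentiableOn`, `theta_iter_mem_Good`); cf. `theta_iter_bound` in `Helper52/Units.lean`. -/
def G_LC : Prop := ∀ F ∈ Good, ∀ (z : ℂ) (δ B : ℝ) (i : ℕ), 0 < δ → ‖z‖ + δ < 1 →
  (∀ w : ℂ, ‖w - z‖ ≤ δ → ‖ev w F‖ ≤ B) → ‖ev z ((theta ℂ)^[i] F)‖ ≤ ((i : ℝ) / δ) ^ i * B

/-- **CORE** (uses `Dom2 q`, `G_LC`; adapt `core_final` of `Helper52/Final.lean`).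

Here `2^p F = Σ_k C(p,k) T_k - Ds p`.  The proof of `core_final` needs one change: `hsmall`.  For
`‖z‖ ≤ 1/4`, `t₀ ≤ Re z`: `Σ_k C(p,k) T_k ev z (Q k) = 2^p ev z (Lop Pt F) + ev z (Lop Pt (Ds p))`.  The
first term is `≤ exp(-3p)` as there.  Second term: `δ = 1/p²`; for `‖w - z‖ ≤ δ` we have `‖w‖ ≤ 1/2`,
`Re w ≥ t₀/2` (`p` large), `‖1+w‖^C(p,2) ≤ e ‖1+z‖^C(p,2)` (`‖1+w‖ ≤ (1+δ)‖1+z‖`),
`exp(-‖w‖²p/5) ≤ e exp(-‖z‖²p/5)`; so with `K` for `c = t₀/2` the values of `Ds p` are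
`≤ B = K p² e² ‖1+z‖^C(p,2) exp(-‖z‖²p/5)`, and by `G_LC` `‖ev z (θ^i (Ds p))‖ ≤ ((q+1) p²)^(q+1) B`
for `i ≤ q`; `‖ev z (Pt i)‖ ≤ e⁴ H`.  So the second term is `poly(p) ‖1+z‖^C(p,2) exp(-‖z‖²p/5)`,
`‖z‖ ≥ t₀`, and the sum of the two is `≤ ‖1+z‖^C(p,2) exp(-‖z‖²p/8)` for large `p`. -/
def G_CORE : Prop := ∀ (q b : ℕ), 1 ≤ b → Dom2 q → ∀ Ds : ℕ → PowerSeries ℂ,
  (∀ p, Ds p ∈ Good) →
  (∀ c : ℝ, 0 < c → ∃ K : ℝ, 1 ≤ K ∧ ∀ (p : ℕ) (z : ℂ), 1 ≤ p → ‖z‖ ≤ 1 / 2 → c ≤ z.re →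
    ‖ev z (Ds p)‖ ≤ K * p ^ 2 * ‖1 + z‖ ^ (p.choose 2) * Real.exp (-(‖z‖ ^ 2 * p / 5))) →
  ∃ p₁ : ℕ, ∀ p ≥ p₁, ∀ F ∈ Good, (2 : ℂ) ^ p • F = (∑ k ∈ range (p + 1), (p.choose k : ℂ) •
      ((Su (p.choose 2) (k * (p - k)) : GI) : PowerSeries ℂ)) - Ds p →
    ∀ (T : Fin q → GIˣ) (c : Fin q → ℂ) (r : ℝ) (ν : ℕ),
    1 - 1 / (p : ℝ) ^ 2 ≤ r → r ≤ 1 - 1 / ((p : ℝ) ^ 2) ^ b → (ν : ℝ) * (1 - r) ≤ 1 →
    ¬ (PowerSeries.X : PowerSeries ℂ) ^ (ν + 1) ∣ Wr T →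
    (∀ z : ℂ, ‖z‖ ≤ r → ‖ev z F - ev z (Fs T c)‖ ≤ Real.exp (-(p : ℝ) ^ 2)) →
    (∀ l, ∀ z : ℂ, ‖z‖ ≤ r → ‖ld (T l) z‖ ≤ ((p : ℝ) ^ 2) ^ b) → False

/-- **MAIN** (uses `G_DB`, `G_DOM`, `G_CORE`; adapt `main_units`, `main_real` of `Helper52/Main.lean`).

Proof.  Let `CP p : PowerSeries ℂ` be the polynomial `Σ_{G even, connected} X^|E(G)|` (in `Good`:
`X_mem_Good`, closure under sums and powers), `ev z (CP p) = Cn p z`, and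
`Ds p = (Σ_k C(p,k) • Su) - 2^p • CP p`; `ev z (Ds p) = 2^p (Wn p z - Cn p z)` for `‖z‖ < 1`
(`even_graph_sum`, `tv_Su`), so `G_DB` is the hypothesis of `G_CORE`.  If `Cn p x = Σ c_l T_l(x)` on
`(0,1)` then `F = Fs T c = CP p` (`eq_zero_of_real`), `2^p F = Σ - Ds p`, and
`‖ev z F‖ = ‖Cn p z‖ ≤ Wn p ‖z‖ ≤ 2^C(p,2) ≤ exp(p²)` (triangle inequality, then as in
`main_units`); `structure_thm` and `G_CORE` give the contradiction.  The reduction from real exponents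
as in `main_real` (with the polynomial of the connected even graphs). -/
def G_MAIN : Prop := ∀ M : ℕ, ∃ p₀ : ℕ, ∀ p ≥ p₀,
    ∀ (c : Fin M → ℝ) (a b : Fin M → ℕ →₀ ℝ),
    (∀ x ∈ Set.Ioo (0 : ℝ) 1,
      ∑ G : SimpleGraph (Fin p), (open Classical in
        if (∀ v, Even (G.neighborSet v).ncard) ∧ G.Connected then x ^ G.edgeSet.ncard else 0)
        = ∑ i, c i * ((a i).prod fun k r => (1 + x ^ (k + 1)) ^ r)
            * ((b i).prod fun k r => (1 - x ^ (k + 1)) ^ r)) → False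

/-! ## Burnside's lemma -/

/-- `V_α(x)`: connected even graphs on `p` labelled vertices fixed by `α`, by number of edges -/
def Va {p : ℕ} (α : Equiv.Perm (Fin p)) (x : ℝ) : ℝ :=
  open Classical in ∑ G : SimpleGraph (Fin p) with
    ((∀ v, Even (G.neighborSet v).ncard) ∧ G.Connected) ∧ (∀ u v, G.Adj (α u) (α v) ↔ G.Adj u v),
    x ^ G.edgeSet.ncard

/-- `u_{p,q}`: the number of isomorphism classes of connected even graphs with `p` vertices and `q`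
edges -/
def upq (p q : ℕ) : ℕ := {C : Set (SimpleGraph (Fin p)) | ∃ G : SimpleGraph (Fin p),
  ((∀ v, Even (G.neighborSet v).ncard) ∧ G.Connected) ∧ G.edgeSet.ncard = q ∧
    C = {H | Nonempty (G ≃g H)}}.ncard

/-- **BURN**.  Proof.  Burnside's lemma `MulAction.sum_card_fixedBy_eq_card_orbits_mul_card_group` for
the action of `Equiv.Perm (Fin p)` on the set `X_q` of the connected even graphs with `q` edges
(`σ • G = G.map σ.toEmbedding`), multiply by `x^q` and sum over `q ≤ C(p,2)`.  The orbits are the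
isomorphism classes; `G` is fixed by `σ` iff `G.Adj (σ u) (σ v) ↔ G.Adj u v`. -/
def G_BURN : Prop := ∀ (p : ℕ) (x : ℝ), (p.factorial : ℝ) *
    ∑ q ∈ range (p.choose 2 + 1), (upq p q : ℝ) * x ^ q = ∑ α : Equiv.Perm (Fin p), Va α x

end

end Pool.Agent.Helper24.EG
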